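import Pool.Agent.N794.CG.Eng
import Pool.Agent.TH894.NF3

/-!
# The angles of the Kloosterman sums for almost all members of dominated families: all intervals, and signs

The definitions and the lemmas on the signs are copied from the starting results
(`Pool.Agent.Results.MP_6ea630_nt.NonIntegralOrderValues`).
-/

set_option autoImplicit false

namespace Pool.Agent.L5helper16.KL

open Finset Filter Polynomial
open Pool.Agent.R459.Eq (Sys pri mem_pri cntA prp)
open Pool.Agent.N794.CG

open Classical in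
/-- all intervals, from the distribution functions of a system and of the negative system -/
lemma interval_bd (a : ℕ → ℤ → ℝ) (n : ℤ) (x : ℕ) (E : ℝ)
    (h1 : ∀ u : ℝ, |(cntA a n x u : ℝ) - ∑ p ∈ pri x, prp a p u| ≤ E)
    (h2 : ∀ u : ℝ, |(cntA (fun p m => -a p m) n x u : ℝ) - ∑ p ∈ pri x, prp (fun p m => -a p m) p u| ≤ E)
    (I : Set ℝ) (hI : I.OrdConnected) :
    |(((pri x).filter (fun p => a p n ∈ I)).card : ℝ) -
      ∑ p ∈ pri x, (((range p).filter (fun t : ℕ => a p (t : ℤ) ∈ I)).card : ℝ) / p| ≤ 2 * E := by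
  obtain ⟨V, hV⟩ : ∃ V : Finset ℝ, V = (pri x).image (fun p => a p n) ∪
    (pri x).biUnion (fun p => (range p).image (fun t : ℕ => a p (t : ℤ))) := ⟨_, rfl⟩
  have hV1 : ∀ p ∈ pri x, a p n ∈ V := by
    intro p hp
    rw [hV, mem_union]
    exact Or.inl (mem_image_of_mem _ hp)
  have hV2 : ∀ p ∈ pri x, ∀ t ∈ range p, a p ((t : ℕ) : ℤ) ∈ V := by
    intro p hp t ht
    rw [hV, mem_union]
    right
    rw [mem_biUnion]
    exact ⟨p, hp, mem_image_of_mem (fun t : ℕ => a p (t : ℤ)) ht⟩
  have hE : 0 ≤ E := (abs_nonneg _).trans (h1 0)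
  rcases (V.filter (fun v => v ∈ I)).eq_empty_or_nonempty with h0 | h0
  · have hno : ∀ v ∈ V, v ∉ I := by
      intro v hv hvI
      have : v ∈ V.filter (fun v => v ∈ I) := mem_filter.2 ⟨hv, hvI⟩
      rw [h0] at this
      exact notMem_empty _ this
    have e1 : (pri x).filter (fun p => a p n ∈ I) = ∅ := by
      rw [filter_eq_empty_iff]
      intro p hp
      exact hno _ (hV1 p hp)
    have e2 : ∑ p ∈ pri x, (((range p).filter (fun t : ℕ => a p (t : ℤ) ∈ I)).card : ℝ) / p = 0 := by
      apply sum_eq_zero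
      intro p hp
      have : (range p).filter (fun t : ℕ => a p (t : ℤ) ∈ I) = ∅ := by
        rw [filter_eq_empty_iff]
        intro t ht
        exact hno _ (hV2 p hp t ht)
      rw [this]
      simp
    rw [e1, e2]
    simp only [card_empty, Nat.cast_zero, sub_self, abs_zero]
    linarith
  · obtain ⟨l, hl⟩ : ∃ l, l = (V.filter (fun v => v ∈ I)).min' h0 := ⟨_, rfl⟩
    obtain ⟨r, hr⟩ : ∃ r, r = (V.filter (fun v => v ∈ I)).max' h0 := ⟨_, rfl⟩
    have hlm : l ∈ V.filter (fun v => v ∈ I) := by rw [hl]; exact min'_mem _ _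
    have hrm : r ∈ V.filter (fun v => v ∈ I) := by rw [hr]; exact max'_mem _ _
    have key : ∀ v ∈ V, (if v ∈ I then (1 : ℝ) else 0) = 1 - (if v < l then 1 else 0) - (if -v < -r then 1 else 0) := by
      intro v hv
      have hlr : l ≤ r := by rw [hl, hr]; exact min'_le_max' _ _
      by_cases hvI : v ∈ I
      · have h3 : l ≤ v := by rw [hl]; exact min'_le _ _ (mem_filter.2 ⟨hv, hvI⟩)
        have h4 : v ≤ r := by rw [hr]; exact le_max' _ _ (mem_filter.2 ⟨hv, hvI⟩)
        rw [if_pos hvI, if_neg (not_lt.2 h3), if_neg (by linarith)]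
        norm_num
      · rw [if_neg hvI]
        by_cases h3 : v < l
        · rw [if_pos h3, if_neg (by linarith)]
          norm_num
        · by_cases h4 : r < v
          · rw [if_neg h3, if_pos (by linarith)]
            norm_num
          · push Not at h3 h4
            exact absurd (hI.out (mem_filter.1 hlm).2 (mem_filter.1 hrm).2 ⟨h3, h4⟩) hvI
    have e1 : (((pri x).filter (fun p => a p n ∈ I)).card : ℝ) =
        (pri x).card - cntA a n x l - cntA (fun p m => -a p m) n x (-r) := by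
      rw [← sum_boole]
      rw [sum_congr rfl fun p hp => key _ (hV1 p hp)]
      rw [sum_sub_distrib, sum_sub_distrib, sum_const, nsmul_eq_mul, mul_one, sum_boole, sum_boole]
      rfl
    have e2 : ∀ p ∈ pri x, (((range p).filter (fun t : ℕ => a p (t : ℤ) ∈ I)).card : ℝ) / p =
        1 - prp a p l - prp (fun p m => -a p m) p (-r) := by
      intro p hp
      have hp0 : (0 : ℝ) < p := by exact_mod_cast (mem_pri.1 hp).2.pos
      have e3 : (((range p).filter (fun t : ℕ => a p (t : ℤ) ∈ I)).card : ℝ) =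
          (p : ℝ) - ((range p).filter (fun t : ℕ => a p (t : ℤ) < l)).card -
            ((range p).filter (fun t : ℕ => -a p (t : ℤ) < -r)).card := by
        rw [← sum_boole]
        rw [sum_congr rfl fun t ht => key _ (hV2 p hp t ht)]
        rw [sum_sub_distrib, sum_sub_distrib, sum_const, nsmul_eq_mul, mul_one, sum_boole, sum_boole, card_range]
      rw [e3]
      unfold prp
      field_simp
    rw [e1, sum_congr rfl e2, sum_sub_distrib, sum_sub_distrib, sum_const, nsmul_eq_mul, mul_one]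
    have g1 := h1 l
    have g2 := h2 (-r)
    rw [abs_le] at g1 g2 ⊢
    constructor <;> linarith [g1.1, g1.2, g2.1, g2.2]

/-- The Kloosterman sum `S(a, 1; p)`. -/
noncomputable def kloosterman (p : ℕ) (a : ℤ) : ℝ :=
  ∑ x ∈ Ico 1 p, Real.cos (2 * Real.pi * ((((a : ZMod p) * (x : ZMod p) + (x : ZMod p)⁻¹).val : ℕ) : ℝ) / (p : ℝ))

/-- The angle `θ / π` in `[0, 1]`, where `2 p ^ (1 / 2) cos θ = S(a, 1; p)`, and `1 / 2` if `p` divides `a`. -/
noncomputable def angle (p : ℕ) (a : ℤ) : ℝ :=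
  if (p : ℤ) ∣ a then 1 / 2 else Real.arccos (kloosterman p a / (2 * √(p : ℝ))) / Real.pi

open Classical in
/-- The number of the primes `p ≤ x` for which the angle of `S(a, 1; p)` is in `I`. -/
noncomputable def count (I : Set ℝ) (x : ℕ) (a : ℤ) : ℕ :=
  ((range (x + 1)).filter (fun p => p.Prime ∧ angle p a ∈ I)).card

open Classical in
/-- The proportion of the residues `t` modulo `p` for which the angle at `P(t)` is in `I`. -/
noncomputable def proportion (P : ℤ[X]) (p : ℕ) (I : Set ℝ) : ℝ :=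
  (((range p).filter (fun t : ℕ => angle p (P.eval (t : ℤ)) ∈ I)).card : ℝ) / p

/-- The sum of the proportions over the primes `p ≤ x`. -/
noncomputable def model (P : ℤ[X]) (I : Set ℝ) (x : ℕ) : ℝ :=
  ∑ p ∈ (range (x + 1)).filter Nat.Prime, proportion P p I

open Classical in
/-- The number of the primes `p ≤ x` which do not divide `a` and satisfy `σ S(a, 1; p) > η p ^ (1 / 2)`. -/
noncomputable def signCount (σ η : ℝ) (x : ℕ) (a : ℤ) : ℕ :=
  ((range (x + 1)).filter (fun p : ℕ => p.Prime ∧ ¬ (p : ℤ) ∣ a ∧ η * √(p : ℝ) < σ * kloosterman p a)).card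

/-- the Kloosterman sum as a function on the residue classes -/
noncomputable def kz (p : ℕ) (z : ZMod p) : ℝ :=
  ∑ x ∈ Ico 1 p, Real.cos (2 * Real.pi * (((z * (x : ZMod p) + (x : ZMod p)⁻¹).val : ℕ) : ℝ) / (p : ℝ))

lemma k_eq (p : ℕ) (a : ℤ) : kloosterman p a = kz p (a : ZMod p) := rfl

lemma angle_congr (p : ℕ) {a b : ℤ} (h : (p : ℤ) ∣ a - b) : angle p a = angle p b := by
  have e : (a : ZMod p) = (b : ZMod p) := by
    rw [← sub_eq_zero, ← Int.cast_sub, ZMod.intCast_zmod_eq_zero_iff_dvd]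
    exact h
  unfold angle
  rw [k_eq, k_eq, e]
  by_cases h1 : (p : ℤ) ∣ b
  · rw [if_pos h1, if_pos ((dvd_iff_dvd_of_dvd_sub h).2 h1)]
  · rw [if_neg h1, if_neg (fun h2 => h1 ((dvd_iff_dvd_of_dvd_sub h).1 h2))]

/-- the system of the angles at the values of a polynomial -/
lemma sys_pos (P : ℤ[X]) : Sys (fun p n => angle p (P.eval n)) := by
  intro p _ m n h
  exact angle_congr p (h.trans (P.sub_dvd_eval_sub m n))

lemma sys_neg (P : ℤ[X]) : Sys (fun p n => -angle p (P.eval n)) := by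
  intro p _ m n h
  simp only
  rw [angle_congr p (h.trans (P.sub_dvd_eval_sub m n))]

/-- the two systems -/
noncomputable def sp (P : ℤ[X]) : AS := ⟨_, sys_pos P⟩
noncomputable def sn (P : ℤ[X]) : AS := ⟨_, sys_neg P⟩

/-- **all intervals** -/
lemma all_intervals (δ : ℝ) (P : ℤ[X]) (x : ℕ) (n : ℤ) (h1 : QA δ (sp P) x n) (h2 : QA δ (sn P) x n) (I : Set ℝ)
    (hI : I.OrdConnected) : |(count I x (P.eval n) : ℝ) - model P I x| ≤ 2 * (x : ℝ) ^ (1 / 2 + δ) := by
  classical
  have h := interval_bd (fun p n => angle p (P.eval n)) n x _ h1 h2 I hI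
  have e1 : (count I x (P.eval n) : ℝ) = (((pri x).filter (fun p => angle p (P.eval n) ∈ I)).card : ℝ) := by
    unfold count pri
    rw [filter_filter]
  have e2 : model P I x = ∑ p ∈ pri x, (((range p).filter (fun t : ℕ => angle p (P.eval (t : ℤ)) ∈ I)).card : ℝ) / p := by
    unfold model proportion pri
    congr!
  rw [e1, e2]
  convert h

/-- the interval of the angles with a given sign -/
noncomputable def side (η σ : ℝ) : Set ℝ :=
  if σ = 1 then Set.Iio (Real.arccos (η / 2) / Real.pi) else Set.Ioi (Real.arccos (-(η / 2)) / Real.pi)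

lemma side_oc (η σ : ℝ) : (side η σ).OrdConnected := by
  unfold side
  split_ifs
  · exact Set.ordConnected_Iio
  · exact Set.ordConnected_Ioi

lemma arccos_lt (y z : ℝ) (hz0 : -1 < z) (hz1 : z < 1) : (Real.arccos y < Real.arccos z ↔ z < y) ∧
    (Real.arccos z < Real.arccos y ↔ y < z) := by
  have h1 : ∀ u w : ℝ, -1 < u → u < 1 → u < w → Real.arccos w < Real.arccos u := by
    intro u w hu hu1 huw
    rcases le_or_gt w 1 with h | h
    · exact Real.strictAntiOn_arccos ⟨hu.le, hu1.le⟩ ⟨by linarith, h⟩ huw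
    · rw [Real.arccos_of_one_le h.le]
      exact Real.arccos_pos.2 hu1
  have h2 : ∀ u w : ℝ, -1 < u → u < 1 → w < u → Real.arccos u < Real.arccos w := by
    intro u w hu hu1 huw
    rcases le_or_gt (-1) w with h | h
    · exact Real.strictAntiOn_arccos ⟨h, by linarith⟩ ⟨hu.le, hu1.le⟩ huw
    · rw [Real.arccos_of_le_neg_one h.le]
      exact Real.strictAntiOn_arccos.injOn.ne_iff ⟨hu.le, hu1.le⟩ ⟨le_rfl, by norm_num⟩ |>.2 hu.ne' |>
        fun h3 => lt_of_le_of_ne (Real.arccos_le_pi u) (by rwa [Real.arccos_neg_one] at h3)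
  refine ⟨⟨fun h => ?_, h1 z y hz0 hz1⟩, ⟨fun h => ?_, h2 z y hz0 hz1⟩⟩
  · by_contra hcon
    push Not at hcon
    rcases hcon.eq_or_lt with h3 | h3
    · rw [h3] at h
      exact lt_irrefl _ h
    · have := h2 z y hz0 hz1 h3
      linarith
  · by_contra hcon
    push Not at hcon
    rcases hcon.eq_or_lt with h3 | h3
    · rw [h3] at h
      exact lt_irrefl _ h
    · have := h1 z y hz0 hz1 h3
      linarith

/-- the signs in terms of the angles -/
lemma side_iff (η : ℝ) (hη : 0 ≤ η) (hη1 : η ≤ 1 / 4) (σ : ℝ) (hσ : σ = 1 ∨ σ = -1) (p : ℕ) (hp : 0 < p) (a : ℤ) :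
    angle p a ∈ side η σ ↔ ¬ (p : ℤ) ∣ a ∧ η * √(p : ℝ) < σ * kloosterman p a := by
  have hp0 : (0 : ℝ) < p := by exact_mod_cast hp
  have hs : 0 < √(p : ℝ) := Real.sqrt_pos.2 hp0
  have hpi := Real.pi_pos
  unfold angle side
  rcases hσ with h | h
  · rw [h, if_pos rfl, one_mul, Set.mem_Iio]
    by_cases h1 : (p : ℤ) ∣ a
    · rw [if_pos h1]
      constructor
      · intro h2
        exfalso
        rw [lt_div_iff₀ hpi] at h2
        have h3 : Real.arccos (η / 2) ≤ Real.pi / 2 := Real.arccos_le_pi_div_two.2 (by linarith)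
        linarith
      · rintro ⟨h2, _⟩
        exact absurd h1 h2
    · rw [if_neg h1, div_lt_div_iff_of_pos_right hpi, (arccos_lt _ (η / 2) (by linarith) (by linarith)).1,
        lt_div_iff₀ (by positivity)]
      constructor
      · intro h2
        exact ⟨h1, by linarith⟩
      · rintro ⟨_, h2⟩
        linarith
  · have hne : ¬ ((-1 : ℝ) = 1) := by norm_num
    rw [h, if_neg hne, neg_one_mul, Set.mem_Ioi]
    by_cases h1 : (p : ℤ) ∣ a
    · rw [if_pos h1]
      constructor
      · intro h2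
        exfalso
        rw [div_lt_iff₀ hpi] at h2
        have h3 := Real.arccos_neg (η / 2)
        have h4 : Real.arccos (η / 2) ≤ Real.pi / 2 := Real.arccos_le_pi_div_two.2 (by linarith)
        linarith
      · rintro ⟨h2, _⟩
        exact absurd h1 h2
    · rw [if_neg h1, div_lt_div_iff_of_pos_right hpi, (arccos_lt _ (-(η / 2)) (by linarith) (by linarith)).2,
        div_lt_iff₀ (by positivity)]
      constructor
      · intro h2
        exact ⟨h1, by linarith⟩
      · rintro ⟨_, h2⟩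
        linarith

open Classical in
lemma count_zmod (p : ℕ) [NeZero p] (Q : ZMod p → Prop) :
    ((range p).filter (fun t : ℕ => Q (t : ZMod p))).card = ((univ : Finset (ZMod p)).filter Q).card := by
  apply card_bij (fun (t : ℕ) _ => (t : ZMod p))
  · intro t ht
    rw [mem_filter] at ht ⊢
    exact ⟨mem_univ _, ht.2⟩
  · intro t ht t' ht' h
    rw [mem_filter, mem_range] at ht ht'
    have h1 := congrArg ZMod.val h
    rwa [ZMod.val_cast_of_lt ht.1, ZMod.val_cast_of_lt ht'.1] at h1
  · intro z hz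
    refine ⟨z.val, ?_, ZMod.natCast_zmod_val z⟩
    rw [mem_filter, mem_range] at *
    refine ⟨ZMod.val_lt z, ?_⟩
    rw [ZMod.natCast_zmod_val]
    exact hz.2

open Classical in
/-- the proportion of a sign for linear polynomials -/
lemma prop_ge (η : ℝ) (hη : 0 ≤ η) (hη1 : η ≤ 1 / 4) (σ : ℝ) (hσ : σ = 1 ∨ σ = -1) (p : ℕ) (hp : p.Prime) (c₀ κ : ℤ)
    (hκ : ¬ (p : ℤ) ∣ κ) : 1 / 4 - η - 1 / √(p : ℝ) - 1 / p ≤ proportion (C c₀ + C κ * X) p (side η σ) := by
  haveI : Fact p.Prime := ⟨hp⟩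
  haveI : NeZero p := ⟨hp.ne_zero⟩
  refine (Pool.Agent.TH894.NF.sg_prop η hη σ hσ p hp).trans (le_of_eq ?_)
  obtain ⟨Q, hQ⟩ : ∃ Q : ZMod p → Prop, Q = fun z => z ≠ 0 ∧ η * √(p : ℝ) < σ * kz p z := ⟨_, rfl⟩
  have hdvd : ∀ a : ℤ, ¬ (p : ℤ) ∣ a ↔ (a : ZMod p) ≠ 0 := by
    intro a
    rw [Ne, ZMod.intCast_zmod_eq_zero_iff_dvd]
  unfold proportion Pool.Agent.TH894.NE.Pr
  rw [pow_one]
  congr 2
  have e1 : ((Pool.Agent.TH894.NE.box 1 p).filter (fun m => ¬ p ∣ m 0 ∧ η * √(p : ℝ) < σ * Pool.Agent.TH894.NF.kls p (m 0))).card =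
      ((range p).filter (fun t : ℕ => Q (t : ZMod p))).card := by
    apply card_bij (fun m _ => m 0)
    · intro m hm
      simp only [mem_filter, Pool.Agent.TH894.NE.mem_box] at hm
      simp only [mem_filter, mem_range]
      refine ⟨hm.1 0, ?_⟩
      rw [hQ]
      refine ⟨?_, hm.2.2⟩
      rw [Ne, ZMod.natCast_eq_zero_iff]
      exact hm.2.1
    · intro m _ m' _ hmm
      funext i
      rw [Subsingleton.elim i 0]
      exact hmm
    · intro a ha
      simp only [mem_filter, mem_range] at ha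
      refine ⟨fun _ => a, ?_, rfl⟩
      simp only [mem_filter, Pool.Agent.TH894.NE.mem_box]
      rw [hQ] at ha
      refine ⟨fun _ => ha.1, ?_, ha.2.2⟩
      have h3 := ha.2.1
      rw [Ne, ZMod.natCast_eq_zero_iff] at h3
      exact h3
  have e2 : ((range p).filter (fun t : ℕ => angle p ((C c₀ + C κ * X : ℤ[X]).eval (t : ℤ)) ∈ side η σ)).card =
      ((range p).filter (fun t : ℕ => Q ((c₀ : ZMod p) + (κ : ZMod p) * (t : ZMod p)))).card := by
    congr 1
    apply filter_congr
    intro t _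
    rw [side_iff η hη hη1 σ hσ p hp.pos, hdvd, hQ, k_eq]
    simp only [eval_add, eval_mul, eval_C, eval_X]
    push_cast
    rfl
  have hκ0 : (κ : ZMod p) ≠ 0 := by
    rw [← hdvd]
    exact hκ
  rw [e2, count_zmod p (fun z => Q ((c₀ : ZMod p) + (κ : ZMod p) * z))]
  have e3 : ((univ : Finset (ZMod p)).filter (fun z => Q ((c₀ : ZMod p) + (κ : ZMod p) * z))).card =
      ((univ : Finset (ZMod p)).filter Q).card := by
    apply card_bij (fun z _ => (c₀ : ZMod p) + (κ : ZMod p) * z)
    · intro z hz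
      rw [mem_filter] at hz ⊢
      exact ⟨mem_univ _, hz.2⟩
    · intro z _ z' _ h
      exact mul_left_cancel₀ hκ0 (add_left_cancel h)
    · intro w hw
      refine ⟨(w - c₀) / κ, ?_, ?_⟩
      · rw [mem_filter] at hw ⊢
        refine ⟨mem_univ _, ?_⟩
        rw [mul_div_cancel₀ _ hκ0, add_sub_cancel]
        exact hw.2
      · rw [mul_div_cancel₀ _ hκ0, add_sub_cancel]
  rw [e3, ← count_zmod p Q, ← e1]
  congr!

end Pool.Agent.L5helper16.KL
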