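import Pool.Agent.L5helper16.KL.Base

/-!
# The signs in the finite-field model, and the passage to the number of the primes
-/

set_option autoImplicit false

namespace Pool.Agent.L5helper16.KL

open Finset Filter Polynomial
open Pool.Agent.R459.Eq (Sys pri mem_pri cntA prp)
open Pool.Agent.N794.CG

lemma pi_card (x : ℕ) : Nat.primeCounting x = ((range (x + 1)).filter Nat.Prime).card := by
  rw [Nat.primeCounting, Nat.primeCounting', Nat.count_eq_card_filter_range]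

/-- a lower bound for the number of the primes -/
lemma pi_lower (n : ℕ) (hn : 10000 ≤ n) : (n : ℝ) / (2 * Real.log n) ≤ Nat.primeCounting n := by
  refine le_trans ?_ (Chebyshev.pi_ge n)
  have hnr : (10000 : ℝ) ≤ n := by exact_mod_cast hn
  have hl : 0 < Real.log n := Real.log_pos (by linarith)
  have h1 : Real.log ((n : ℝ) + 1) ≤ ((n : ℝ) + 1) / 50 := by
    have h2 : √((n : ℝ) + 1) ≤ ((n : ℝ) + 1) / 100 := by
      rw [Real.sqrt_le_left (by positivity)]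
      nlinarith
    have h3 : Real.log ((n : ℝ) + 1) = 2 * Real.log (√((n : ℝ) + 1)) := by
      rw [Real.log_sqrt (by positivity)]
      ring
    have h4 : Real.log (√((n : ℝ) + 1)) ≤ √((n : ℝ) + 1) := by
      have := Real.log_le_sub_one_of_pos (show 0 < √((n : ℝ) + 1) by positivity)
      linarith
    rw [h3]
    linarith
  have h5 := Real.log_two_gt_d9
  rw [div_le_div_iff₀ (by positivity) hl]
  have h6 : (n : ℝ) ≤ 2 * (n * Real.log 2 - Real.log ((n : ℝ) + 1)) := by nlinarith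
  calc (n : ℝ) * Real.log n ≤ (2 * (n * Real.log 2 - Real.log ((n : ℝ) + 1))) * Real.log n :=
        mul_le_mul_of_nonneg_right h6 hl.le
    _ = _ := by ring

/-- the error is smaller than a multiple of the number of the primes -/
lemma err_pi (δ ε : ℝ) (hδ1 : δ ≤ 1 / 4) (hε : 0 < ε) : ∃ x₀ : ℕ, ∀ x : ℕ, x₀ ≤ x →
    2 * (x : ℝ) ^ (1 / 2 + δ) ≤ ε * Nat.primeCounting x := by
  have t1 : Tendsto (fun N : ℕ => (N : ℝ) ^ (1 / 8 : ℝ)) atTop atTop :=
    (tendsto_rpow_atTop (by norm_num)).comp tendsto_natCast_atTop_atTop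
  obtain ⟨x₀, hx₀⟩ := eventually_atTop.1 (t1.eventually_ge_atTop (32 / ε))
  refine ⟨x₀ + 10000, fun x hx => ?_⟩
  have h1 := hx₀ x (by omega)
  have hxr : (10000 : ℝ) ≤ x := by exact_mod_cast (by omega : 10000 ≤ x)
  have hx0 : (0 : ℝ) < x := by linarith
  have hl : 0 < Real.log x := Real.log_pos (by linarith)
  have h2 := pi_lower x (by omega)
  have h3 : Real.log x ≤ 8 * (x : ℝ) ^ (1 / 8 : ℝ) := by
    have := Real.log_le_rpow_div hx0.le (show (0 : ℝ) < 1 / 8 by norm_num)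
    linarith
  have h4 : (x : ℝ) ^ (1 / 2 + δ) ≤ (x : ℝ) ^ (3 / 4 : ℝ) := Real.rpow_le_rpow_of_exponent_le (by linarith) (by linarith)
  have h5 : (x : ℝ) ^ (7 / 8 : ℝ) / 16 ≤ Nat.primeCounting x := by
    refine le_trans ?_ h2
    rw [div_le_div_iff₀ (by norm_num) (by positivity)]
    have e : (x : ℝ) ^ (7 / 8 : ℝ) * (x : ℝ) ^ (1 / 8 : ℝ) = x := by
      rw [← Real.rpow_add hx0]
      norm_num
    have h6 : 0 ≤ (x : ℝ) ^ (7 / 8 : ℝ) := by positivity
    calc (x : ℝ) ^ (7 / 8 : ℝ) * (2 * Real.log x) ≤ (x : ℝ) ^ (7 / 8 : ℝ) * (2 * (8 * (x : ℝ) ^ (1 / 8 : ℝ))) :=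
          mul_le_mul_of_nonneg_left (by linarith) h6
      _ = ((x : ℝ) ^ (7 / 8 : ℝ) * (x : ℝ) ^ (1 / 8 : ℝ)) * 16 := by ring
      _ = _ := by rw [e]
  have h7 : (x : ℝ) ^ (7 / 8 : ℝ) = (x : ℝ) ^ (3 / 4 : ℝ) * (x : ℝ) ^ (1 / 8 : ℝ) := by
    rw [← Real.rpow_add hx0]
    norm_num
  have h8 : 0 < (x : ℝ) ^ (3 / 4 : ℝ) := by positivity
  rw [div_le_iff₀ hε] at h1
  calc 2 * (x : ℝ) ^ (1 / 2 + δ) ≤ 2 * (x : ℝ) ^ (3 / 4 : ℝ) := by linarith
    _ = (x : ℝ) ^ (3 / 4 : ℝ) * 32 / 16 := by ring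
    _ ≤ (x : ℝ) ^ (3 / 4 : ℝ) * ((x : ℝ) ^ (1 / 8 : ℝ) * ε) / 16 := by
        apply div_le_div_of_nonneg_right _ (by norm_num)
        exact mul_le_mul_of_nonneg_left h1 h8.le
    _ = ε * ((x : ℝ) ^ (7 / 8 : ℝ) / 16) := by rw [h7]; ring
    _ ≤ _ := mul_le_mul_of_nonneg_left h5 hε.le

/-- the model for the signs -/
lemma model_ge (η ε : ℝ) (hη : 0 ≤ η) (hη1 : η ≤ 1 / 4) (hε : 0 < ε) (κ : ℤ) (hκ : κ ≠ 0) :
    ∃ x₀ : ℕ, ∀ x : ℕ, x₀ ≤ x → ∀ (c₀ : ℤ) (σ : ℝ), (σ = 1 ∨ σ = -1) →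
      (1 / 4 - η - ε) * Nat.primeCounting x ≤ model (C c₀ + C κ * X) (side η σ) x := by
  obtain ⟨M, hM⟩ := exists_nat_ge ((4 / ε) ^ 2 + 4 / ε + 1 + κ.natAbs)
  obtain ⟨x₀, hx₀⟩ := exists_nat_ge (M / (2 * ε))
  obtain ⟨x₁, hx₁⟩ := eventually_atTop.1 (Nat.tendsto_primeCounting.eventually_ge_atTop x₀)
  refine ⟨x₁, fun x hx c₀ σ hσ => ?_⟩
  have hnn : ∀ (P : ℤ[X]) (p : ℕ) (S : Set ℝ), 0 ≤ proportion P p S := by
    intro P p S
    unfold proportion
    positivity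
  have hpi : (M : ℝ) / (2 * ε) ≤ Nat.primeCounting x := hx₀.trans (by exact_mod_cast hx₁ x hx)
  have hpi0 : (0 : ℝ) ≤ Nat.primeCounting x := Nat.cast_nonneg _
  unfold model
  by_cases hsm : 1 / 4 - η - ε / 2 < 0
  · refine le_trans ?_ (sum_nonneg fun p _ => hnn _ _ _)
    apply mul_nonpos_of_nonpos_of_nonneg (by linarith) hpi0
  push Not at hsm
  have hsub : ((range (x + 1)).filter Nat.Prime).filter (fun p => M < p) ⊆ (range (x + 1)).filter Nat.Prime := filter_subset _ _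
  refine le_trans ?_ (sum_le_sum_of_subset_of_nonneg hsub fun p _ _ => hnn _ _ _)
  have h2 : ∀ p ∈ ((range (x + 1)).filter Nat.Prime).filter (fun p => M < p), 1 / 4 - η - ε / 2 ≤
      proportion (C c₀ + C κ * X) p (side η σ) := by
    intro p hp
    rw [mem_filter, mem_filter] at hp
    have hpp := hp.1.2
    have hMp : (M : ℝ) ≤ p := by exact_mod_cast hp.2.le
    have hnd : ¬ (p : ℤ) ∣ κ := by
      intro hd
      have h11 : p ≤ κ.natAbs := Nat.le_of_dvd (Int.natAbs_pos.2 hκ) (Int.natCast_dvd.1 hd)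
      have h12 : (p : ℝ) ≤ κ.natAbs := by exact_mod_cast h11
      have h13 : 0 ≤ (4 / ε) ^ 2 := sq_nonneg _
      have h14 : 0 < 4 / ε := by positivity
      linarith
    refine le_trans ?_ (prop_ge η hη hη1 σ hσ p hpp c₀ κ hnd)
    have hκn : (0 : ℝ) ≤ κ.natAbs := Nat.cast_nonneg _
    obtain ⟨P, hP⟩ : ∃ P : ℝ, P = p := ⟨_, rfl⟩
    rw [← hP] at hMp ⊢
    have h11 : (4 / ε) ^ 2 + 4 / ε + 1 ≤ P := by linarith
    have h12 : 0 < 4 / ε := by positivity
    have h13 : 1 / P ≤ ε / 4 := by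
      rw [div_le_div_iff₀ (by nlinarith) (by norm_num)]
      have : 4 / ε ≤ P := by nlinarith [sq_nonneg (4 / ε)]
      rw [div_le_iff₀ hε] at this
      linarith
    have h14 : 4 / ε ≤ √P := Real.le_sqrt_of_sq_le (by nlinarith)
    have h15 : 1 / √P ≤ ε / 4 := by
      rw [div_le_div_iff₀ (by linarith) (by norm_num)]
      rw [div_le_iff₀ hε] at h14
      linarith
    linarith
  have h3 : (Nat.primeCounting x : ℝ) - M ≤ ((((range (x + 1)).filter Nat.Prime).filter (fun p => M < p)).card : ℝ) := by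
    have h4 : ((range (x + 1)).filter Nat.Prime).card ≤
        (((range (x + 1)).filter Nat.Prime).filter (fun p => M < p)).card + M := by
      have h5 := card_filter_add_card_filter_not (s := (range (x + 1)).filter Nat.Prime) (fun p => M < p)
      have h6 : (((range (x + 1)).filter Nat.Prime).filter (fun p => ¬ M < p)).card ≤ M := by
        have h7 : ((range (x + 1)).filter Nat.Prime).filter (fun p => ¬ M < p) ⊆ Icc 1 M := by
          intro p hp
          rw [mem_filter, mem_filter] at hp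
          rw [mem_Icc]
          exact ⟨hp.1.2.pos, by omega⟩
        refine (card_le_card h7).trans ?_
        simp
      omega
    rw [pi_card]
    have : (((range (x + 1)).filter Nat.Prime).card : ℝ) ≤
        (((range (x + 1)).filter Nat.Prime).filter (fun p => M < p)).card + M := by exact_mod_cast h4
    linarith
  calc (1 / 4 - η - ε) * (Nat.primeCounting x : ℝ) ≤ (1 / 4 - η - ε / 2) * ((Nat.primeCounting x : ℝ) - M) := by
        rw [div_le_iff₀ (by positivity)] at hpi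
        have h5 : (1 / 4 - η - ε / 2) * M ≤ 1 / 4 * M := mul_le_mul_of_nonneg_right (by linarith) (Nat.cast_nonneg _)
        nlinarith
    _ ≤ (1 / 4 - η - ε / 2) * ((((range (x + 1)).filter Nat.Prime).filter (fun p => M < p)).card : ℝ) :=
        mul_le_mul_of_nonneg_left h3 hsm
    _ = ∑ _p ∈ ((range (x + 1)).filter Nat.Prime).filter (fun p => M < p), (1 / 4 - η - ε / 2) := by
        rw [sum_const, nsmul_eq_mul]
        ring
    _ ≤ _ := sum_le_sum h2

/-- **the signs** -/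
lemma signs_of (δ η ε : ℝ) (hδ1 : δ ≤ 1 / 4) (hη : 0 ≤ η) (hη1 : η ≤ 1 / 4) (hε : 0 < ε) (κ : ℤ) (hκ : κ ≠ 0) :
    ∃ x₀ : ℕ, ∀ x : ℕ, x₀ ≤ x → ∀ (c₀ v : ℤ), (∀ I : Set ℝ, I.OrdConnected →
      |(count I x ((C c₀ + C κ * X : ℤ[X]).eval v) : ℝ) - model (C c₀ + C κ * X) I x| ≤ 2 * (x : ℝ) ^ (1 / 2 + δ)) →
      ∀ σ : ℝ, (σ = 1 ∨ σ = -1) → (1 / 4 - η - ε) * Nat.primeCounting x ≤ signCount σ η x (c₀ + κ * v) := by
  obtain ⟨x₁, h1⟩ := err_pi δ (ε / 2) hδ1 (by positivity)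
  obtain ⟨x₂, h2⟩ := model_ge η (ε / 2) hη hη1 (by positivity) κ hκ
  refine ⟨x₁ + x₂, fun x hx c₀ v h σ hσ => ?_⟩
  have g1 := h1 x (by omega)
  have g2 := h2 x (by omega) c₀ σ hσ
  have g3 := h (side η σ) (side_oc η σ)
  have e : count (side η σ) x ((C c₀ + C κ * X : ℤ[X]).eval v) = signCount σ η x (c₀ + κ * v) := by
    classical
    have e1 : (C c₀ + C κ * X : ℤ[X]).eval v = c₀ + κ * v := by
      simp only [eval_add, eval_mul, eval_C, eval_X]
    rw [e1]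
    unfold count signCount
    congr 1
    ext p
    simp only [mem_filter]
    constructor
    · rintro ⟨hr, hp, hs⟩
      exact ⟨hr, hp, (side_iff η hη hη1 σ hσ p hp.pos _).1 hs⟩
    · rintro ⟨hr, hp, hs⟩
      exact ⟨hr, hp, (side_iff η hη hη1 σ hσ p hp.pos _).2 hs⟩
  rw [e] at g3
  have g4 := (abs_le.1 g3).1
  linarith

end Pool.Agent.L5helper16.KL
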